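import Mathlib
import Pool.Agent.H33.TDP.Main
import Pool.Agent.H2.FC.Viz

/-!
The Havet-Yu bound for graphs of large maximum degree `Δ` all of whose components have at most `C Δ` vertices, from the bound for
dense graphs.
-/

set_option autoImplicit false

namespace Pool.Agent.H2.CF

open Finset Classical
open Pool.Agent.H71.DN Pool.Agent.H71.HL Pool.Agent.H2.NE Pool.Agent.H33.TDP Pool.Agent.H90.TDP

theorem greedy {W : Type} [Fintype W] (H : SimpleGraph W) (d : ℕ) (hd : ∀ v, dg H v ≤ d) :
    ∃ f : W → ℕ, (∀ v, f v ≤ d) ∧ ∀ a b, H.Adj a b → f a ≠ f b := by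
  have key : ∀ S : Finset W, ∃ f : W → ℕ, (∀ v, f v ≤ d) ∧
      ∀ a ∈ S, ∀ b ∈ S, H.Adj a b → f a ≠ f b := by
    intro S
    induction S using Finset.induction_on with
    | empty => exact ⟨fun _ => 0, fun _ => Nat.zero_le _, fun a ha => absurd ha (notMem_empty a)⟩
    | insert v S hv ih =>
      obtain ⟨f, h1, h2⟩ := ih
      obtain ⟨c, hc, hc2⟩ : ∃ c ∈ range (d + 1),
          c ∉ (univ.filter fun u => H.Adj v u).image f := by
        by_contra hcon
        push Not at hcon
        have h3 : range (d + 1) ⊆ (univ.filter fun u => H.Adj v u).image f := fun c hc => hcon c hc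
        have h4 := card_le_card h3
        rw [card_range] at h4
        have h5 : ((univ.filter fun u => H.Adj v u).image f).card ≤ dg H v := card_image_le
        have h6 := hd v
        omega
      rw [mem_range] at hc
      refine ⟨fun u => if u = v then c else f u, ?_, ?_⟩
      · intro u
        by_cases h : u = v
        · simp only [h, if_true]; omega
        · simp only [h, if_false]; exact h1 u
      · intro a ha b hb hab
        rw [mem_insert] at ha hb
        have hne : a ≠ b := hab.ne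
        by_cases h : a = v
        · have hb' : b ≠ v := fun h' => hne (by rw [h, h'])
          simp only [h, if_true, hb', if_false]
          intro he
          exact hc2 (mem_image.2 ⟨b, mem_filter.2 ⟨mem_univ _, by rw [← h]; exact hab⟩, he.symm⟩)
        · by_cases h' : b = v
          · simp only [h, if_false, h', if_true]
            intro he
            exact hc2 (mem_image.2 ⟨a, mem_filter.2 ⟨mem_univ _, by rw [← h']; exact hab.symm⟩, he⟩)
          · simp only [h, if_false, h']
            exact h2 a (ha.resolve_left h) b (hb.resolve_left h') hab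
  obtain ⟨f, h1, h2⟩ := key univ
  exact ⟨f, h1, fun a b hab => h2 a (mem_univ _) b (mem_univ _) hab⟩

/-- The trivial bound `2 Δ + p`. -/
theorem triv {W : Type} [Fintype W] (H : SimpleGraph W) (d p N : ℕ) (hp : 1 ≤ p)
    (hd : ∀ v, dg H v ≤ d) (hN : 2 * d + p + 1 ≤ N) : Lab H p N := by
  obtain ⟨f, h1, h2⟩ := greedy H d hd
  obtain ⟨mm, hm⟩ := Pool.Agent.H2.FC.viz H (d + 1) (fun v => by have := hd v; omega)
  -- the label of an edge
  have hex : ∀ a b, H.Adj a b → ∃ l < d + 1, mm l a = b := hm.cov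
  have huni : ∀ a b, H.Adj a b → ∀ l < d + 1, ∀ l' < d + 1, mm l a = b → mm l' a = b → l = l' := by
    intro a b hab l hl l' hl' h3 h4
    by_contra hne
    have h5 : mm l a ≠ a := by rw [h3]; exact hab.ne'
    exact hm.dis l hl l' hl' hne a h5 (by rw [h3, h4])
  have hsym : ∀ a b, ∀ l < d + 1, mm l a = b → mm l b = a := by
    intro a b l hl h3
    rw [← h3]
    exact hm.inv l hl a
  obtain ⟨g, hg⟩ : ∃ g : Sym2 W → ℕ, ∀ a b, H.Adj a b → g s(a, b) < d + 1 ∧
      mm (g s(a, b)) a = b := by
    have h3 : ∀ e : Sym2 W, ∃ l : ℕ, ∀ a b, e = s(a, b) → H.Adj a b → l < d + 1 ∧ mm l a = b := by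
      intro e
      induction e using Sym2.ind with
      | _ x y =>
        by_cases hxy : H.Adj x y
        · obtain ⟨l, hl, h4⟩ := hex x y hxy
          refine ⟨l, fun a b he _ => ⟨hl, ?_⟩⟩
          rw [Sym2.eq_iff] at he
          rcases he with ⟨rfl, rfl⟩ | ⟨rfl, rfl⟩
          · exact h4
          · exact hsym _ _ l hl h4
        · refine ⟨0, fun a b he hab => absurd hab ?_⟩
          rw [Sym2.eq_iff] at he
          rcases he with ⟨rfl, rfl⟩ | ⟨rfl, rfl⟩
          · exact hxy
          · exact fun h => hxy h.symm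
    choose g hg using h3
    exact ⟨g, fun a b hab => hg _ a b rfl hab⟩
  refine ⟨f, fun e => g e + d + p, fun v => by have := h1 v; omega, ?_, h2, ?_, ?_⟩
  · intro a b hab
    have := (hg a b hab).1
    show g s(a, b) + d + p < N
    omega
  · intro a b hab
    have := h1 a
    show ¬ Nr p (f a) (g s(a, b) + d + p)
    unfold Nr
    omega
  · intro a b b' hab hab' hne he
    have h3 := hg a b hab
    have h4 := hg a b' hab'
    have he' : g s(a, b) + d + p = g s(a, b') + d + p := he
    have h5 : g s(a, b) = g s(a, b') := by omega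
    rw [h5] at h3
    exact hne (h3.2.symm.trans h4.2)

/-- A labelling of the induced subgraph on a set, written with functions on `V`. -/
theorem ext_lab {V : Type} [Fintype V] (G : SimpleGraph V) (S : Set V) (p N : ℕ)
    (h : Lab (G.induce S) p N) : ∃ (fV : V → ℕ) (fE : Sym2 V → ℕ), (∀ v ∈ S, fV v < N) ∧
      (∀ a ∈ S, ∀ b ∈ S, G.Adj a b → fE s(a, b) < N) ∧
      (∀ a ∈ S, ∀ b ∈ S, G.Adj a b → fV a ≠ fV b) ∧
      (∀ a ∈ S, ∀ b ∈ S, G.Adj a b → ¬ Nr p (fV a) (fE s(a, b))) ∧
      ∀ a ∈ S, ∀ b ∈ S, ∀ b' ∈ S, G.Adj a b → G.Adj a b' → b ≠ b' → fE s(a, b) ≠ fE s(a, b') := by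
  obtain ⟨f, g, h1, h2, h3, h4, h5⟩ := h
  have hinj : Function.Injective (Sym2.map (Subtype.val : S → V)) :=
    Sym2.map.injective Subtype.val_injective
  obtain ⟨fV, hfV⟩ : ∃ fV : V → ℕ, ∀ v (hv : v ∈ S), fV v = f ⟨v, hv⟩ :=
    ⟨fun v => if hv : v ∈ S then f ⟨v, hv⟩ else 0, fun v hv => dif_pos hv⟩
  obtain ⟨fE, hfE⟩ : ∃ fE : Sym2 V → ℕ, ∀ a (ha : a ∈ S) b (hb : b ∈ S),
      fE s(a, b) = g s(⟨a, ha⟩, ⟨b, hb⟩) := by
    refine ⟨fun e => if h : ∃ e' : Sym2 S, Sym2.map Subtype.val e' = e then g h.choose else 0, ?_⟩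
    intro a ha b hb
    have hx : ∃ e' : Sym2 S, Sym2.map Subtype.val e' = s(a, b) :=
      ⟨s(⟨a, ha⟩, ⟨b, hb⟩), rfl⟩
    show (if h : ∃ e' : Sym2 S, Sym2.map Subtype.val e' = s(a, b) then g h.choose else 0) = _
    rw [dif_pos hx]
    congr 1
    apply hinj
    rw [hx.choose_spec]
    rfl
  refine ⟨fV, fE, ?_, ?_, ?_, ?_, ?_⟩
  · intro v hv
    rw [hfV v hv]
    exact h1 _
  · intro a ha b hb hab
    rw [hfE a ha b hb]
    exact h2 ⟨a, ha⟩ ⟨b, hb⟩ hab
  · intro a ha b hb hab
    rw [hfV a ha, hfV b hb]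
    exact h3 ⟨a, ha⟩ ⟨b, hb⟩ hab
  · intro a ha b hb hab
    rw [hfV a ha, hfE a ha b hb]
    exact h4 ⟨a, ha⟩ ⟨b, hb⟩ hab
  · intro a ha b hb b' hb' hab hab' hne
    rw [hfE a ha b hb, hfE a ha b' hb']
    exact h5 ⟨a, ha⟩ ⟨b, hb⟩ ⟨b', hb'⟩ hab hab' (fun h => hne (congrArg Subtype.val h))

/-- Labellings of the components give a labelling. -/
theorem glue {V : Type} [Fintype V] (G : SimpleGraph V) (p N : ℕ)
    (h : ∀ K : G.ConnectedComponent, Lab (G.induce K.supp) p N) : Lab G p N := by
  have h' := fun K : G.ConnectedComponent => ext_lab G K.supp p N (h K)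
  choose fV fE h1 h2 h3 h4 h5 using h'
  have hout : ∀ a b, G.Adj a b → G.connectedComponentMk (Quot.out s(a, b)).1 =
      G.connectedComponentMk a := by
    intro a b hab
    have h6 : s((Quot.out s(a, b)).1, (Quot.out s(a, b)).2) = s(a, b) := Quot.out_eq s(a, b)
    rw [Sym2.eq_iff] at h6
    rcases h6 with ⟨h7, _⟩ | ⟨h7, _⟩
    · rw [h7]
    · rw [h7]
      exact SimpleGraph.ConnectedComponent.sound hab.symm.reachable
  have hmem : ∀ v, v ∈ (G.connectedComponentMk v).supp := fun v => rfl
  have hadj : ∀ a b, G.Adj a b → b ∈ (G.connectedComponentMk a).supp := fun a b hab =>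
    SimpleGraph.ConnectedComponent.sound hab.symm.reachable
  have hK : ∀ a b, G.Adj a b → fV (G.connectedComponentMk b) b =
      fV (G.connectedComponentMk a) b := by
    intro a b hab
    rw [SimpleGraph.ConnectedComponent.sound hab.symm.reachable]
  refine ⟨fun v => fV (G.connectedComponentMk v) v,
    fun e => fE (G.connectedComponentMk (Quot.out e).1) e, ?_, ?_, ?_, ?_, ?_⟩
  · intro v
    exact h1 _ v (hmem v)
  · intro a b hab
    show fE (G.connectedComponentMk (Quot.out s(a, b)).1) s(a, b) < N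
    rw [hout a b hab]
    exact h2 _ a (hmem a) b (hadj a b hab) hab
  · intro a b hab
    show fV (G.connectedComponentMk a) a ≠ fV (G.connectedComponentMk b) b
    rw [hK a b hab]
    exact h3 _ a (hmem a) b (hadj a b hab) hab
  · intro a b hab
    show ¬ Nr p (fV (G.connectedComponentMk a) a)
      (fE (G.connectedComponentMk (Quot.out s(a, b)).1) s(a, b))
    rw [hout a b hab]
    exact h4 _ a (hmem a) b (hadj a b hab) hab
  · intro a b b' hab hab' hne
    show fE (G.connectedComponentMk (Quot.out s(a, b)).1) s(a, b) ≠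
      fE (G.connectedComponentMk (Quot.out s(a, b')).1) s(a, b')
    rw [hout a b hab, hout a b' hab']
    exact h5 _ a (hmem a) b (hadj a b hab) b' (hadj a b' hab') hab hab' hne

/-- From dense graphs to graphs all of whose components have at most `C Δ` vertices. -/
theorem comp_form
    (H : ∀ c : ℝ, 0 < c → ∃ n0 : ℕ, ∀ (V : Type) [Fintype V] (G : SimpleGraph V)
      [DecidableRel G.Adj], n0 ≤ Fintype.card V → c * Fintype.card V ≤ G.maxDegree →
      ∀ p : ℕ, 1 ≤ p → HYu G p) (C : ℝ) :
    ∃ D : ℕ, ∀ (V : Type) [Fintype V] (G : SimpleGraph V) [DecidableRel G.Adj],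
      D ≤ G.maxDegree →
      (∀ K : G.ConnectedComponent, (K.supp.ncard : ℝ) ≤ C * G.maxDegree) →
      ∀ p : ℕ, 1 ≤ p → HYu G p := by
  obtain ⟨C', hC'⟩ : ∃ C' : ℝ, C' = max C 1 := ⟨_, rfl⟩
  have hC0 : 0 < C' := by rw [hC']; exact lt_max_of_lt_right one_pos
  have hCC : C ≤ C' := by rw [hC']; exact le_max_left _ _
  obtain ⟨n0, hn0⟩ := H (1 / (2 * C')) (by positivity)
  refine ⟨2 * n0, fun V _ G _ hD hcomp p hp => ?_⟩
  obtain ⟨Δ, hΔ⟩ : ∃ Δ, Δ = G.maxDegree := ⟨_, rfl⟩
  rw [← hΔ] at hD hcomp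
  refine hyu_of_lab G p hp ?_
  rw [← hΔ]
  refine glue G p _ fun K => ?_
  -- the component
  have hdegK : ∀ v : K.supp, dg (G.induce K.supp) v ≤ Δ := by
    intro v
    have h1 : dg (G.induce K.supp) v ≤ dg G v := by
      unfold dg
      refine card_le_card_of_injOn Subtype.val ?_ Subtype.val_injective.injOn
      intro u hu
      simp only [coe_filter, mem_univ, true_and, Set.mem_ofPred_eq] at hu ⊢
      exact hu
    exact h1.trans (by rw [hΔ]; exact dg_le_max G v)
  have hdm : ∀ v : K.supp, dg (G.induce K.supp) v ≤ (G.induce K.supp).maxDegree :=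
    fun v => dg_le_max _ v
  by_cases h2 : 2 * (G.induce K.supp).maxDegree ≤ Δ
  · exact triv _ _ p _ hp hdm (by omega)
  · -- a dense component
    have hne : Nonempty K.supp := by
      obtain ⟨v, hv⟩ := K.nonempty_supp
      exact ⟨⟨v, hv⟩⟩
    obtain ⟨v, hv⟩ := (G.induce K.supp).exists_maximal_degree_vertex
    have hle : (G.induce K.supp).maxDegree ≤ Δ := by
      rw [hv]
      have h3 := hdegK v
      have h4 : (G.induce K.supp).degree v = dg (G.induce K.supp) v := by
        unfold dg
        rw [← SimpleGraph.card_neighborFinset_eq_degree]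
        congr 1
        ext u
        simp
      rw [h4]
      exact h3
    have hcard : (G.induce K.supp).maxDegree < Fintype.card K.supp := by
      rw [hv]
      exact (G.induce K.supp).degree_lt_card_verts v
    have hnc : (Fintype.card K.supp : ℝ) = (K.supp.ncard : ℝ) := by
      rw [← Nat.card_coe_set_eq, Nat.card_eq_fintype_card]
    have h3 := hn0 K.supp (G.induce K.supp) (by omega) (by
      rw [hnc, one_div, inv_mul_le_iff₀ (by positivity)]
      have h5 := hcomp K
      have h6 : (Δ : ℝ) ≤ 2 * ((G.induce K.supp).maxDegree : ℝ) := by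
        have h7 : Δ ≤ 2 * (G.induce K.supp).maxDegree := by omega
        exact_mod_cast h7
      calc (K.supp.ncard : ℝ) ≤ C * Δ := h5
        _ ≤ C' * Δ := mul_le_mul_of_nonneg_right hCC (Nat.cast_nonneg _)
        _ ≤ C' * (2 * ((G.induce K.supp).maxDegree : ℝ)) := mul_le_mul_of_nonneg_left h6 hC0.le
        _ = 2 * C' * ((G.induce K.supp).maxDegree : ℝ) := by ring) p hp
    obtain ⟨fV, fE, a1, a2, a3, a4, a5⟩ := h3
    refine ⟨fV, fE, fun v => ?_, fun a b hab => ?_, a3, fun a b hab => ?_, a5⟩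
    · have := a1 v
      omega
    · have := a2 s(a, b) hab
      omega
    · have h7 := a4 a b hab
      unfold Nr
      rw [le_abs] at h7
      omega

end Pool.Agent.H2.CF
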